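import Pool.Agent.Lib.H5.NK.Defs
import Pool.Agent.Lib.H5.NK.Switch
import Pool.Agent.Lib.H5.NK.GridSys

/-!
# Geometric `(n_k)` configurations exist for all `n ≥ 8 k ^ 8`

We start from the lattice rectangle `[0, k C) × [0, 2 k)` with a system of lines such that every
line has exactly `k` points and every point has `k - 1` or `k` lines (`H5NK.Grid`). Its `k`
translates along a line of irrational slope, joined through the points on `k - 1` lines, form a
configuration with `2 k ^ 3 C` points and with many parallel lines (`H5NK.exists_lift`). The affine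
switch (`H5NK.hasCfg_switch`) gives all the sizes.
-/

namespace Pool.Agent.Results.MP_377d0a_co.PolyAll

open H5NK H5NK.Grid

/-- For every `k ≥ 2` and every `n ≥ 8 k ^ 8` there is a geometric `(n_k)` configuration. -/
theorem result : ∀ k n : ℕ, 2 ≤ k → 8 * k ^ 8 ≤ n → n ∈ N k := by
  classical
  intro k n hk hn
  obtain ⟨K, rfl⟩ : ∃ K, k = K + 1 := ⟨k - 1, by omega⟩
  have hK : 1 ≤ K := by omega
  set M := 2 * (K + 1) ^ 3 * K with hM
  have hM0 : 0 < M := by positivity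
  set C := n / M with hC
  have hCge : 4 * (K + 1) ^ 4 ≤ C := by
    rw [hC, Nat.le_div_iff_mul_le hM0]
    calc 4 * (K + 1) ^ 4 * M = 8 * (K + 1) ^ 7 * K := by rw [hM]; ring
      _ ≤ 8 * (K + 1) ^ 7 * (K + 1) := Nat.mul_le_mul_left _ (by omega)
      _ = 8 * (K + 1) ^ 8 := by ring
      _ ≤ n := hn
  have hz : zz (K + 1) * (zz (K + 1) + 2) ≤ C := by
    have h1 : (4 * ((K : ℤ) + 1) ^ 4) ≤ C := by exact_mod_cast hCge
    have h2 : (1 : ℤ) ≤ K := by exact_mod_cast hK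
    have h3 : zz (K + 1) ≤ 2 * ((K : ℤ) + 1) ^ 2 := by
      unfold zz
      push_cast
      nlinarith
    have h4 : zz (K + 1) + 2 ≤ 2 * ((K : ℤ) + 1) ^ 2 := by
      unfold zz
      push_cast
      nlinarith
    have h5 := zz_pos hk
    calc zz (K + 1) * (zz (K + 1) + 2)
        ≤ (2 * ((K : ℤ) + 1) ^ 2) * (2 * ((K : ℤ) + 1) ^ 2) :=
          mul_le_mul h3 h4 (by linarith) (by positivity)
      _ = 4 * ((K : ℤ) + 1) ^ 4 := by ring
      _ ≤ C := h1
  obtain ⟨P, L, H, hD⟩ := exists_lift hk (pts (K + 1) C) (lns (K + 1) C)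
    (card_degrees hk hz) (fun l hl => card_line hk hz hl)
  have hDc := card_D hk hz
  set r := n % M with hr
  have hrM : r < M := Nat.mod_lt _ hM0
  have hrD : r ≤ (L.filter (fun l => l.1 = √2)).card := by
    refine le_trans ?_ hD
    simp only [Nat.add_sub_cancel] at hDc ⊢
    have h1 : 2 * (K + 1) ^ 2 * (4 * (K + 1) ^ 4) ≤ 2 * (K + 1) ^ 2 * C :=
      Nat.mul_le_mul_left _ hCge
    have h2 : 4 * (K + 1) * K ^ 2 * (K * (2 * (K + 1) - 3)) ≤ 4 * (K + 1) * (K + 1) ^ 2 * ((K + 1) * (2 * (K + 1))) := by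
      gcongr <;> omega
    have h3 : M ≤ 2 * (K + 1) ^ 3 * (K + 1) := by
      rw [hM]
      exact Nat.mul_le_mul_left _ (by omega)
    have h4 : 4 * (K + 1) * (K + 1) ^ 2 * ((K + 1) * (2 * (K + 1))) + 2 * (K + 1) ^ 3 * (K + 1)
        ≤ 2 * (K + 1) ^ 2 * (4 * (K + 1) ^ 4) := by
      have h5 : 1 ≤ K + 1 := by omega
      have h6 : 2 * (K + 1) ^ 5 ≤ (K + 1) ^ 6 := by
        calc 2 * (K + 1) ^ 5 ≤ (K + 1) * (K + 1) ^ 5 := Nat.mul_le_mul_right _ hk
          _ = (K + 1) ^ 6 := by ring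
      have h7 : (K + 1) ^ 4 ≤ (K + 1) ^ 5 := Nat.pow_le_pow_right h5 (by norm_num)
      calc 4 * (K + 1) * (K + 1) ^ 2 * ((K + 1) * (2 * (K + 1))) + 2 * (K + 1) ^ 3 * (K + 1)
          = 8 * (K + 1) ^ 5 + 2 * (K + 1) ^ 4 := by ring
        _ ≤ 8 * (K + 1) ^ 5 + 2 * (K + 1) ^ 5 := by omega
        _ ≤ 8 * (K + 1) ^ 6 := by omega
        _ = 2 * (K + 1) ^ 2 * (4 * (K + 1) ^ 4) := by ring
    omega
  have h := hasCfg_switch H √2 hrD
  have e : K * ((pts (K + 1) C).card * (K + 1)) + r = n := by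
    rw [card_pts]
    have h1 : K * (2 * (K + 1) ^ 2 * C * (K + 1)) = M * C := by rw [hM]; ring
    rw [h1, hC, hr]
    exact Nat.div_add_mod n M
  rw [e] at h
  apply mem_N_of_hasCfg _ h
  have : 0 < 8 * (K + 1) ^ 8 := by positivity
  omega

end Pool.Agent.Results.MP_377d0a_co.PolyAll
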