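import Pool.Agent.Lib.H5.NK.Defs
import Pool.Agent.Lib.H5.NK.Polygon
import Pool.Agent.Lib.H5.NK.Switch

/-!
# All large geometric `(n_k)` configurations

For every `k ≥ 2` and every `n ≥ (k - 1) ^ 2 * k ^ (⌈log₂ k⌉ + 2)` there is a geometric `(n_k)`
configuration.

We start from the configuration with `m = k ^ (⌈log₂ k⌉ + 1)` points made of regular `2k`-gons
(`H5NK.exists_cfg_polygon`), which has `m / k` parallel lines. The affine switch
(`H5NK.hasCfg_switch`) gives configurations with `(k - 1) m + r` points for all `r ≤ m / k`, and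
disjoint unions of these have all the sizes claimed.
-/

namespace Pool.Agent.Results.MP_377d0a_co.QuasiPolyAll

open H5NK

theorem union_many {k M q : ℕ} (h : ∀ r ≤ q, HasCfg (M + r) k) :
    ∀ a r : ℕ, r ≤ a * q → HasCfg (a * M + r) k := by
  intro a
  induction a with
  | zero =>
    intro r hr
    have : r = 0 := by omega
    subst this
    simpa using hasCfg_zero k
  | succ a ih =>
    intro r hr
    by_cases hrq : r ≤ q
    · have h1 := hasCfg_add (h r hrq) (ih 0 (Nat.zero_le _))
      have e : M + r + (a * M + 0) = (a + 1) * M + r := by ring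
      rw [e] at h1
      exact h1
    · have h2 : r - q ≤ a * q := by
        have : (a + 1) * q = a * q + q := by ring
        omega
      have h1 := hasCfg_add (h q le_rfl) (ih (r - q) h2)
      have e : M + q + (a * M + (r - q)) = (a + 1) * M + r := by
        have : (a + 1) * M = a * M + M := by ring
        omega
      rw [e] at h1
      exact h1

theorem all_large (k n : ℕ) (hk : 2 ≤ k) (hn : (k - 1) ^ 2 * k ^ (Nat.clog 2 k + 2) ≤ n) :
    HasCfg n k := by
  classical
  obtain ⟨K, rfl⟩ : ∃ K, k = K + 1 := ⟨k - 1, by omega⟩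
  rw [Nat.add_sub_cancel] at hn
  set c := Nat.clog 2 (K + 1) with hc
  have hle : K + 1 ≤ 2 ^ c := Nat.le_pow_clog (by norm_num) _
  obtain ⟨P, L, H, a₀, ha₀⟩ := exists_cfg_polygon (K + 1) c hk hle
  set M := K * (K + 1) ^ (c + 1) with hM
  have hM0 : 0 < M := by
    rw [hM]
    have : 0 < K := by omega
    positivity
  have hblock : ∀ r ≤ (K + 1) ^ c, HasCfg (M + r) (K + 1) := by
    intro r hr
    exact hasCfg_switch H a₀ (by rw [ha₀]; exact hr)
  have hdiv : (K + 1) * K ≤ n / M := by
    rw [Nat.le_div_iff_mul_le hM0, hM]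
    calc (K + 1) * K * (K * (K + 1) ^ (c + 1)) = K ^ 2 * (K + 1) ^ (c + 2) := by ring
      _ ≤ n := hn
  have hmod : n % M ≤ (n / M) * (K + 1) ^ c := by
    have h1 : n % M < M := Nat.mod_lt _ hM0
    calc n % M ≤ M := h1.le
      _ = ((K + 1) * K) * (K + 1) ^ c := by rw [hM]; ring
      _ ≤ (n / M) * (K + 1) ^ c := Nat.mul_le_mul_right _ hdiv
  have h2 := union_many hblock (n / M) (n % M) hmod
  have h3 : n / M * M + n % M = n := Nat.div_add_mod' n M
  rwa [h3] at h2

/-- For every `k ≥ 2` and every `n ≥ (k - 1) ^ 2 * k ^ (⌈log₂ k⌉ + 2)` there is a geometric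
`(n_k)` configuration. -/
theorem result : ∀ k n : ℕ, 2 ≤ k → (k - 1) ^ 2 * k ^ (Nat.clog 2 k + 2) ≤ n → n ∈ N k := by
  intro k n hk hn
  apply mem_N_of_hasCfg
  · refine le_trans ?_ hn
    have h1 : 0 < (k - 1) ^ 2 := by
      have : 0 < k - 1 := by omega
      positivity
    have h2 : 0 < k ^ (Nat.clog 2 k + 2) := by positivity
    exact Nat.mul_pos h1 h2
  · exact all_large k n hk hn

end Pool.Agent.Results.MP_377d0a_co.QuasiPolyAll
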