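import Pool.Agent.Lib.H5.NK.Defs
import Pool.Agent.Lib.H5.NK.Polygon

/-!
# Small geometric `(n_k)` configurations

For every `k ≥ 2` there is a geometric `(n_k)` configuration with `n = k ^ (⌈log₂ k⌉ + 1)`.
Its points are a subset of a generic Minkowski sum of `⌈log₂ k⌉` regular `2k`-gons.
-/

namespace Pool.Agent.Results.MP_377d0a_co.QuasiPolySmall

/-- For every `k ≥ 2` there is a geometric `(n_k)` configuration with `n = k ^ (⌈log₂ k⌉ + 1)`. -/
theorem result : ∀ k : ℕ, 2 ≤ k → k ^ (Nat.clog 2 k + 1) ∈ H5NK.N k := by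
  intro k hk
  apply H5NK.mem_N_of_hasCfg
  · exact Nat.one_le_pow _ _ (by omega)
  · exact H5NK.hasCfg_polygon k _ hk (Nat.le_pow_clog (by norm_num) k)

end Pool.Agent.Results.MP_377d0a_co.QuasiPolySmall
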